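import Mathlib

/-!
# Block A: the inequality for the trial operator

`x s = C - s H`, `P s` and `N s` its positive and negative parts, `Y = 2 ∫ P s ds`. Then
`Tr Y H Y ≤ 2 Tr C² Y - 4 ∫ Tr (P s)³ ds`.
-/

set_option autoImplicit false
set_option linter.unusedSectionVars false

open Matrix MeasureTheory
open scoped ComplexOrder

namespace Pool.Agent.Lib_helper94.GC34.A67

variable {n : Type} [Fintype n] [DecidableEq n]

lemma trace_mul_re_nonneg {A B : Matrix n n ℂ} (hA : A.PosSemidef) (hB : B.PosSemidef) :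
    0 ≤ (A * B * B).trace.re := by
  have h1 : (A * B * B).trace = (Bᴴ * A * B).trace := by
    rw [hB.isHermitian.eq, Matrix.trace_mul_comm, Matrix.mul_assoc]
  rw [h1]
  exact (Complex.le_def.1 (hA.conjTranspose_mul_mul_same B).trace_nonneg).1

/-- The pointwise inequality. -/
theorem A_point {P N P' N' H : Matrix n n ℂ} {τ : ℝ} (hτ : 0 < τ)
    (hP : P.PosSemidef) (hN : N.PosSemidef) (hPN : P * N = 0)
    (hP' : P'.PosSemidef) (hN' : N'.PosSemidef) (hPN' : P' * N' = 0)
    (hX : P' - N' = P - N + (τ : ℂ) • H) :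
    (P' * H * P).trace.re ≤ (H * P * P).trace.re + τ * (H * H * P).trace.re := by
  have hNP : N * P = 0 := by
    have := congrArg conjTranspose hPN
    rwa [conjTranspose_mul, hP.isHermitian.eq, hN.isHermitian.eq, conjTranspose_zero] at this
  have hNP' : N' * P' = 0 := by
    have := congrArg conjTranspose hPN'
    rwa [conjTranspose_mul, hP'.isHermitian.eq, hN'.isHermitian.eq, conjTranspose_zero] at this
  have hτH : (τ : ℂ) • H = P' - N' - P + N := by
    rw [hX]; abel
  have e1 : P' = P - N + (τ : ℂ) • H + N' := by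
    rw [← hX]; abel
  have e2 : (P' * H * P).trace = (H * P * P).trace + (τ : ℂ) * (H * H * P).trace +
      (N' * H * P).trace := by
    have h1 : P' * H * P = P * H * P - N * H * P + (τ : ℂ) • (H * H * P) + N' * H * P := by
      conv_lhs => rw [e1]
      simp only [sub_mul, add_mul, Matrix.smul_mul]
    rw [h1, trace_add, trace_add, trace_sub, trace_smul, smul_eq_mul]
    have h2 : (N * H * P).trace = 0 := by
      rw [Matrix.mul_assoc, Matrix.trace_mul_comm, Matrix.mul_assoc, hPN, Matrix.mul_zero,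
        trace_zero]
    have h3 : (P * H * P).trace = (H * P * P).trace := by
      rw [Matrix.mul_assoc, Matrix.trace_mul_comm]
    rw [h2, h3, sub_zero]
  have e3 : (τ : ℂ) * (N' * H * P).trace = -(N' * N' * P).trace - (N' * P * P).trace := by
    have h1 : (τ : ℂ) * (N' * H * P).trace = (N' * ((τ : ℂ) • H) * P).trace := by
      rw [Matrix.mul_smul, Matrix.smul_mul, trace_smul, smul_eq_mul]
    rw [h1, hτH, mul_add, mul_sub, mul_sub, hNP', zero_sub, add_mul, sub_mul, neg_mul, trace_add,
      trace_sub, trace_neg, Matrix.mul_assoc N' N P, hNP, Matrix.mul_zero, trace_zero, add_zero]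
  have e4 : 0 ≤ (N' * N' * P).trace.re := by
    have h := trace_mul_re_nonneg hP hN'
    have h1 : (N' * N' * P).trace = (P * N' * N').trace := by
      rw [Matrix.trace_mul_comm, Matrix.mul_assoc]
    rwa [h1]
  have e5 : 0 ≤ (N' * P * P).trace.re := trace_mul_re_nonneg hN' hP
  have e6 : τ * (N' * H * P).trace.re ≤ 0 := by
    have h := congrArg Complex.re e3
    rw [Complex.re_ofReal_mul, Complex.sub_re, Complex.neg_re] at h
    linarith
  have e7 : (N' * H * P).trace.re ≤ 0 := by
    by_contra hc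
    exact absurd (mul_pos hτ (not_le.1 hc)) (not_lt.2 e6)
  rw [e2, Complex.add_re, Complex.add_re, Complex.re_ofReal_mul]
  linarith

/-- The real part of the trace of a product of three matrices, two of them with entries given by
integrals, is the integral. -/
lemma trace_integral {A B : Matrix n n ℂ} {Q : ℝ → Matrix n n ℂ} {a b : ℝ}
    (hQ : ∀ i j, Continuous fun s => Q s i j) :
    (A * B * Matrix.of fun i j => ∫ s in a..b, Q s i j).trace = ∫ s in a..b, (A * B * Q s).trace := by
  have h1 : ∀ M : Matrix n n ℂ, (A * B * M).trace = ∑ i, ∑ k, (A * B) i k * M k i := fun M => rfl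
  simp only [h1, Matrix.of_apply]
  rw [intervalIntegral.integral_finsetSum]
  · refine Finset.sum_congr rfl fun i _ => ?_
    rw [intervalIntegral.integral_finsetSum]
    · refine Finset.sum_congr rfl fun k _ => ?_
      rw [intervalIntegral.integral_const_mul]
    · intro k _
      exact ((hQ k i).const_mul _).intervalIntegrable _ _
  · intro i _
    exact (continuous_finsetSum _ fun k _ => (hQ k i).const_mul _).intervalIntegrable _ _

/-- `Z s = ∫ P`, entry by entry. -/
noncomputable def Zint (P : ℝ → Matrix n n ℂ) (s : ℝ) : Matrix n n ℂ :=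
  Matrix.of fun i j => ∫ t in (0 : ℝ)..s, P t i j

lemma hasDerivAt_Zint {P : ℝ → Matrix n n ℂ} (hP : ∀ i j, Continuous fun s => P s i j) (s : ℝ)
    (i j : n) : HasDerivAt (fun s => Zint P s i j) (P s i j) s :=
  intervalIntegral.integral_hasDerivAt_right ((hP i j).intervalIntegrable _ _)
    ((hP i j).stronglyMeasurableAtFilter _ _) (hP i j).continuousAt

lemma trace3 (A H B : Matrix n n ℂ) :
    (A * H * B).trace = ∑ i, ∑ k, (∑ j, A i j * H j k) * B k i := rfl

lemma hasDerivAt_ZHZ {P : ℝ → Matrix n n ℂ} (hP : ∀ i j, Continuous fun s => P s i j)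
    (H : Matrix n n ℂ) (s : ℝ) :
    HasDerivAt (fun s => (Zint P s * H * Zint P s).trace)
      ((P s * H * Zint P s).trace + (Zint P s * H * P s).trace) s := by
  simp only [trace3]
  rw [← Finset.sum_add_distrib]
  refine HasDerivAt.fun_sum fun i _ => ?_
  rw [← Finset.sum_add_distrib]
  refine HasDerivAt.fun_sum fun k _ => ?_
  exact (HasDerivAt.fun_sum fun j _ => (hasDerivAt_Zint hP s i j).mul_const _).mul
    (hasDerivAt_Zint hP s k i)

lemma continuous_Zint {P : ℝ → Matrix n n ℂ} (hP : ∀ i j, Continuous fun s => P s i j) (i j : n) :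
    Continuous fun s => Zint P s i j :=
  continuous_iff_continuousAt.2 fun s => (hasDerivAt_Zint hP s i j).continuousAt

lemma continuous_trace3 {A B : ℝ → Matrix n n ℂ} (hA : ∀ i j, Continuous fun s => A s i j)
    (hB : ∀ i j, Continuous fun s => B s i j) (H : Matrix n n ℂ) :
    Continuous fun s => (A s * H * B s).trace := by
  simp only [trace3]
  exact continuous_finsetSum _ fun i _ => continuous_finsetSum _ fun k _ =>
    (continuous_finsetSum _ fun j _ => (hA i j).mul_const _).mul (hB k i)

lemma continuous_mul2 {A B : ℝ → Matrix n n ℂ} (hA : ∀ i j, Continuous fun s => A s i j)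
    (hB : ∀ i j, Continuous fun s => B s i j) (i j : n) : Continuous fun s => (A s * B s) i j := by
  simp only [Matrix.mul_apply]
  exact continuous_finsetSum _ fun k _ => (hA i k).mul (hB k j)

lemma trace_conj_re (A H B : Matrix n n ℂ) (hA : A.IsHermitian) (hH : H.IsHermitian)
    (hB : B.IsHermitian) : (A * H * B).trace.re = (B * H * A).trace.re := by
  have h : (A * H * B)ᴴ = B * H * A := by
    rw [conjTranspose_mul, conjTranspose_mul, hA.eq, hH.eq, hB.eq, Matrix.mul_assoc]
  rw [← h, trace_conjTranspose]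
  rfl

lemma Zint_isHermitian {P : ℝ → Matrix n n ℂ} (hP : ∀ s, (P s).IsHermitian) (s : ℝ) :
    (Zint P s).IsHermitian := by
  refine Matrix.IsHermitian.ext fun i j => ?_
  show star (∫ t in (0 : ℝ)..s, P t j i) = ∫ t in (0 : ℝ)..s, P t i j
  rw [← starRingEnd_apply, ← intervalIntegral.intervalIntegral_conj]
  refine intervalIntegral.integral_congr fun t _ => ?_
  exact (hP t).apply i j

lemma NP_zero {P N : Matrix n n ℂ} (hP : P.IsHermitian) (hN : N.IsHermitian) (hPN : P * N = 0) :
    N * P = 0 := by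
  have := congrArg conjTranspose hPN
  rwa [conjTranspose_mul, hP.eq, hN.eq, conjTranspose_zero] at this

/-- `Tr C² P = Tr P³ + 2 s Tr H P² + s² Tr H² P`. -/
lemma trace_CCP {C H P N : Matrix n n ℂ} {s : ℝ} (hP : P.IsHermitian) (hN : N.IsHermitian)
    (hPN : P * N = 0) (hX : P - N = C - (s : ℂ) • H) :
    (C * C * P).trace = (P * P * P).trace + 2 * s * (H * P * P).trace +
      (s : ℂ) ^ 2 * (H * H * P).trace := by
  have hNP := NP_zero hP hN hPN
  have hC : C = P - N + (s : ℂ) • H := by rw [hX]; abel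
  have h1 : C * P = P * P + (s : ℂ) • (H * P) := by
    rw [hC, add_mul, sub_mul, hNP, sub_zero, Matrix.smul_mul]
  have h2 : C * C * P = P * P * P + (s : ℂ) • (P * H * P) - N * (P * P) - (s : ℂ) • (N * H * P) +
      (s : ℂ) • (H * P * P) + (s : ℂ) • (s : ℂ) • (H * H * P) := by
    rw [Matrix.mul_assoc, h1]
    conv_lhs => rw [hC]
    simp only [add_mul, sub_mul, mul_add, Matrix.smul_mul, Matrix.mul_smul, Matrix.mul_assoc]
    abel
  have h3 : N * (P * P) = 0 := by rw [← Matrix.mul_assoc, hNP, Matrix.zero_mul]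
  have h4 : (N * H * P).trace = 0 := by
    rw [Matrix.mul_assoc, Matrix.trace_mul_comm, Matrix.mul_assoc, hPN, Matrix.mul_zero, trace_zero]
  have h5 : (P * H * P).trace = (H * P * P).trace := by
    rw [Matrix.mul_assoc, Matrix.trace_mul_comm]
  rw [h2, h3, sub_zero, trace_add, trace_add, trace_sub, trace_add, trace_smul, trace_smul,
    trace_smul, trace_smul, trace_smul, h4, h5]
  simp only [smul_eq_mul, mul_zero, sub_zero]
  ring

lemma re_trace_integral {A B : Matrix n n ℂ} {Q : ℝ → Matrix n n ℂ} {b : ℝ}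
    (hQ : ∀ i j, Continuous fun s => Q s i j) :
    (A * B * Zint Q b).trace.re = ∫ s in (0 : ℝ)..b, (A * B * Q s).trace.re := by
  have h := trace_integral (A := A) (B := B) (a := 0) (b := b) hQ
  have h2 : (A * B * Zint Q b).trace = ∫ s in (0 : ℝ)..b, (A * B * Q s).trace := h
  rw [h2]
  have hc : Continuous fun s => (A * B * Q s).trace :=
    continuous_trace3 (A := fun _ => A) (B := Q) (fun _ _ => continuous_const) hQ B
  exact (Complex.reCLM.intervalIntegral_comp_comm (hc.intervalIntegrable 0 b)).symm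

lemma re_trace_ZHP {H : Matrix n n ℂ} (hH : H.IsHermitian)
    {P N : ℝ → Matrix n n ℂ} (hPc : ∀ i j, Continuous fun s => P s i j)
    (hP : ∀ s, (P s).PosSemidef) (hN : ∀ s, (N s).PosSemidef) (hPN : ∀ s, P s * N s = 0)
    {C : Matrix n n ℂ} (hX : ∀ s : ℝ, P s - N s = C - (s : ℂ) • H) {s : ℝ} (hs : 0 ≤ s) :
    (Zint P s * H * P s).trace.re ≤
      s * (H * P s * P s).trace.re + s ^ 2 / 2 * (H * H * P s).trace.re := by
  have h1 : (Zint P s * H * P s).trace.re = (P s * H * Zint P s).trace.re :=
    trace_conj_re _ _ _ (Zint_isHermitian (fun t => (hP t).isHermitian) s) hH (hP s).isHermitian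
  rw [h1, re_trace_integral hPc]
  have h2 : ∫ t in (0 : ℝ)..s, ((H * P s * P s).trace.re + (s - t) * (H * H * P s).trace.re) =
      s * (H * P s * P s).trace.re + s ^ 2 / 2 * (H * H * P s).trace.re := by
    rw [intervalIntegral.integral_add, intervalIntegral.integral_const,
      intervalIntegral.integral_mul_const, intervalIntegral.integral_sub,
      intervalIntegral.integral_const, integral_id]
    · simp only [smul_eq_mul]
      ring
    · exact continuous_const.intervalIntegrable _ _
    · exact continuous_id.intervalIntegrable _ _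
    · exact continuous_const.intervalIntegrable _ _
    · exact ((continuous_const.sub continuous_id).mul continuous_const).intervalIntegrable _ _
  rw [← h2]
  refine intervalIntegral.integral_mono_on hs ?_ ?_ fun t ht => ?_
  · exact (Complex.continuous_re.comp (continuous_trace3 (A := fun _ => P s) (B := P)
      (fun _ _ => continuous_const) hPc H)).intervalIntegrable _ _
  · exact (continuous_const.add ((continuous_const.sub continuous_id).mul
      continuous_const)).intervalIntegrable _ _
  · have h3 : (P s * H * P t).trace.re = (P t * H * P s).trace.re :=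
      trace_conj_re _ _ _ (hP s).isHermitian hH (hP t).isHermitian
    rw [h3]
    rcases ht.2.lt_or_eq with hlt | heq
    · refine A_point (sub_pos.2 hlt) (hP s) (hN s) (hPN s) (hP t) (hN t) (hPN t) ?_
      rw [hX t, hX s, Complex.ofReal_sub, sub_smul]
      abel
    · rw [heq, sub_self, zero_mul, add_zero, Matrix.mul_assoc, Matrix.trace_mul_comm]

/-- **Block A.** If `P s - N s = C - s H` with `P s, N s ≥ 0`, `P s N s = 0`, then
`Tr Z H Z ≤ Tr C² Z - ∫ Tr (P s)³ ds`, `Z = ∫ P s ds`, integrals over `[0, S]`. -/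
theorem A_int {C H : Matrix n n ℂ} (hH : H.IsHermitian)
    {P N : ℝ → Matrix n n ℂ} (hPc : ∀ i j, Continuous fun s => P s i j)
    (hP : ∀ s, (P s).PosSemidef) (hN : ∀ s, (N s).PosSemidef) (hPN : ∀ s, P s * N s = 0)
    (hX : ∀ s : ℝ, P s - N s = C - (s : ℂ) • H) {S : ℝ} (hS : 0 ≤ S) :
    (Zint P S * H * Zint P S).trace.re ≤
      (C * C * Zint P S).trace.re - ∫ s in (0 : ℝ)..S, (P s * P s * P s).trace.re := by
  have hZc := continuous_Zint hPc
  have hd : ∀ s, HasDerivAt (fun s => (Zint P s * H * Zint P s).trace.re)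
      ((P s * H * Zint P s).trace + (Zint P s * H * P s).trace).re s := fun s =>
    Complex.reCLM.hasFDerivAt.comp_hasDerivAt s (hasDerivAt_ZHZ hPc H s)
  have hc1 : Continuous fun s => (P s * H * Zint P s).trace := continuous_trace3 (A := P) (B := Zint P) hPc hZc H
  have hc2 : Continuous fun s => (Zint P s * H * P s).trace := continuous_trace3 (A := Zint P) (B := P) hZc hPc H
  have h0 : (Zint P 0 * H * Zint P 0).trace.re = 0 := by
    have : Zint P 0 = 0 := by
      ext i j
      exact intervalIntegral.integral_same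
    rw [this, Matrix.mul_zero, trace_zero, Complex.zero_re]
  have h1 := intervalIntegral.integral_eq_sub_of_hasDerivAt (a := 0) (b := S) (fun s _ => hd s)
    ((Complex.continuous_re.comp (hc1.add hc2)).intervalIntegrable _ _)
  rw [h0, sub_zero] at h1
  have hc3 : Continuous fun s => (P s * P s * P s).trace := by
    have := continuous_trace3 (A := fun s => P s * P s) (B := P) (continuous_mul2 hPc hPc) hPc
      (1 : Matrix n n ℂ)
    simpa only [Matrix.mul_one] using this
  have hc4 : Continuous fun s => (C * C * P s).trace :=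
    continuous_trace3 (A := fun _ => C) (B := P) (fun _ _ => continuous_const) hPc C
  rw [← h1, re_trace_integral hPc, ← intervalIntegral.integral_sub]
  · refine intervalIntegral.integral_mono_on hS ?_ ?_ fun s hs => ?_
    · exact (Complex.continuous_re.comp (hc1.add hc2)).intervalIntegrable _ _
    · exact ((Complex.continuous_re.comp hc4).sub
        (Complex.continuous_re.comp hc3)).intervalIntegrable _ _
    · have h2 := re_trace_ZHP hH hPc hP hN hPN hX hs.1
      have h3 : (P s * H * Zint P s).trace.re = (Zint P s * H * P s).trace.re :=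
        trace_conj_re _ _ _ (hP s).isHermitian hH
          (Zint_isHermitian (fun t => (hP t).isHermitian) s)
      have h4 := congrArg Complex.re
        (trace_CCP (hP s).isHermitian (hN s).isHermitian (hPN s) (hX s))
      have h5 : ((2 : ℂ) * (s : ℂ) * (H * P s * P s).trace).re =
          2 * s * (H * P s * P s).trace.re := by
        rw [show (2 : ℂ) * (s : ℂ) = ((2 * s : ℝ) : ℂ) by push_cast; ring,
          Complex.re_ofReal_mul]
      have h6 : ((s : ℂ) ^ 2 * (H * H * P s).trace).re = s ^ 2 * (H * H * P s).trace.re := by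
        rw [show (s : ℂ) ^ 2 = ((s ^ 2 : ℝ) : ℂ) by push_cast; ring, Complex.re_ofReal_mul]
      rw [Complex.add_re, Complex.add_re, h5, h6] at h4
      rw [Complex.add_re, h3, h4]
      linarith
  · exact (Complex.continuous_re.comp hc4).intervalIntegrable _ _
  · exact (Complex.continuous_re.comp hc3).intervalIntegrable _ _

end Pool.Agent.Lib_helper94.GC34.A67

/-! ### The positive part of the functional calculus, integrals over `(0, ∞)` -/

section

open Matrix MeasureTheory Set
open scoped ComplexOrder MatrixOrder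

namespace Pool.Agent.Lib_helper94.GC34.A67

variable {n : Type} [Fintype n] [DecidableEq n]

/-- the positive part -/
noncomputable def pos (X : Matrix n n ℂ) : Matrix n n ℂ := cfc (fun x : ℝ => max x 0) X

/-- the negative part -/
noncomputable def neg (X : Matrix n n ℂ) : Matrix n n ℂ := cfc (fun x : ℝ => max (-x) 0) X

lemma cont_spec (f : ℝ → ℝ) (X : Matrix n n ℂ) : ContinuousOn f (spectrum ℝ X) :=
  Matrix.finite_real_spectrum.continuousOn _

lemma pos_posSemidef (X : Matrix n n ℂ) : (pos X).PosSemidef :=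
  Matrix.nonneg_iff_posSemidef.1 (cfc_nonneg fun _ _ => le_max_right _ _)

lemma neg_posSemidef (X : Matrix n n ℂ) : (neg X).PosSemidef :=
  Matrix.nonneg_iff_posSemidef.1 (cfc_nonneg fun _ _ => le_max_right _ _)

lemma pos_sub_neg {X : Matrix n n ℂ} (hX : X.IsHermitian) : pos X - neg X = X := by
  rw [pos, neg, ← cfc_sub _ _ X (cont_spec _ _) (cont_spec _ _)]
  refine (cfc_congr fun x _ => ?_).trans (cfc_id' ℝ X hX)
  show max x 0 - max (-x) 0 = x
  rcases le_total x 0 with h | h
  · rw [max_eq_right h, max_eq_left (by linarith)]; ring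
  · rw [max_eq_left h, max_eq_right (by linarith)]; ring

lemma pos_mul_neg (X : Matrix n n ℂ) : pos X * neg X = 0 := by
  rw [pos, neg, ← cfc_mul _ _ X (cont_spec _ _) (cont_spec _ _)]
  have h : cfc (fun x : ℝ => max x 0 * max (-x) 0) X = cfc (fun _ : ℝ => (0 : ℝ)) X := by
    refine cfc_congr fun x _ => ?_
    show max x 0 * max (-x) 0 = 0
    rcases le_total x 0 with h | h
    · rw [max_eq_right h, zero_mul]
    · rw [max_eq_right (a := -x) (by linarith), mul_zero]
  rw [h, cfc_const_zero]

lemma pos_cube (X : Matrix n n ℂ) :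
    pos X * pos X * pos X = cfc (fun x : ℝ => max x 0 ^ 3) X := by
  rw [pos, ← cfc_mul _ _ X (cont_spec _ _) (cont_spec _ _),
    ← cfc_mul _ _ X (cont_spec _ _) (cont_spec _ _)]
  refine cfc_congr fun x _ => ?_
  show max x 0 * max x 0 * max x 0 = max x 0 ^ 3
  ring

lemma trace2_nonneg {A B : Matrix n n ℂ} (hA : A.PosSemidef) (hB : B.PosSemidef) :
    0 ≤ (A * B).trace.re := by
  obtain ⟨R, hR⟩ := CStarAlgebra.nonneg_iff_eq_star_mul_self.mp hB.nonneg
  have hR' : B = Rᴴ * R := hR
  have h1 : (A * B).trace = (R * A * Rᴴ).trace := by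
    rw [hR', ← Matrix.mul_assoc, Matrix.trace_mul_comm, Matrix.mul_assoc]
  rw [h1]
  exact (Complex.le_def.1 (hA.mul_mul_conjTranspose_same R).trace_nonneg).1

/-- the square of the Hilbert-Schmidt norm -/
lemma hs_entry (A : Matrix n n ℂ) (i j : n) : ‖A i j‖ ^ 2 ≤ (Aᴴ * A).trace.re := by
  have h1 : (Aᴴ * A).trace.re = ∑ j, ∑ i, ‖A i j‖ ^ 2 := by
    simp only [Matrix.trace, Matrix.diag, Matrix.mul_apply, Matrix.conjTranspose_apply,
      Complex.re_sum]
    refine Finset.sum_congr rfl fun j _ => Finset.sum_congr rfl fun i _ => ?_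
    rw [Complex.star_def, ← Complex.normSq_eq_conj_mul_self, Complex.ofReal_re,
      Complex.normSq_eq_norm_sq]
  rw [h1]
  refine le_trans ?_ (Finset.single_le_sum (f := fun j => ∑ i, ‖A i j‖ ^ 2)
    (fun j _ => Finset.sum_nonneg fun i _ => sq_nonneg _) (Finset.mem_univ j))
  exact Finset.single_le_sum (f := fun i => ‖A i j‖ ^ 2) (fun i _ => sq_nonneg _)
    (Finset.mem_univ i)

lemma trace_sub_sq {A E : Matrix n n ℂ} (hA : A.IsHermitian) (hE : E.IsHermitian) :
    ((A - E)ᴴ * (A - E)).trace.re =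
      (A * A).trace.re - 2 * (A * E).trace.re + (E * E).trace.re := by
  rw [(hA.sub hE).eq, sub_mul, mul_sub, mul_sub, trace_sub, trace_sub, trace_sub,
    Matrix.trace_mul_comm E A]
  simp only [Complex.sub_re]
  ring

/-- The positive part is a contraction in the Hilbert-Schmidt norm. -/
lemma pos_lip {X X' : Matrix n n ℂ} (hX : X.IsHermitian) (hX' : X'.IsHermitian) :
    ((pos X - pos X')ᴴ * (pos X - pos X')).trace.re ≤ ((X - X')ᴴ * (X - X')).trace.re := by
  have hΔ : (pos X - pos X').IsHermitian :=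
    (pos_posSemidef X).isHermitian.sub (pos_posSemidef X').isHermitian
  have hE : (X - X').IsHermitian := hX.sub hX'
  rw [hΔ.eq, hE.eq]
  have h1 : (X - X') = (pos X - pos X') - (neg X - neg X') := by
    conv_lhs => rw [← pos_sub_neg hX, ← pos_sub_neg hX']
    abel
  have h2 : ((pos X - pos X') * (X - X')).trace.re =
      ((pos X - pos X') * (pos X - pos X')).trace.re + (pos X * neg X').trace.re +
        (pos X' * neg X).trace.re := by
    have h3 : (pos X - pos X') * (X - X') = (pos X - pos X') * (pos X - pos X') +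
        pos X * neg X' + pos X' * neg X := by
      conv_lhs => rw [h1]
      rw [mul_sub (pos X - pos X') (pos X - pos X'), sub_mul (pos X) (pos X') (neg X - neg X'),
        mul_sub (pos X) (neg X), mul_sub (pos X') (neg X), pos_mul_neg, pos_mul_neg]
      abel
    rw [h3, trace_add, trace_add, Complex.add_re, Complex.add_re]
  have h4 : 0 ≤ (pos X * neg X').trace.re := trace2_nonneg (pos_posSemidef _) (neg_posSemidef _)
  have h5 : 0 ≤ (pos X' * neg X).trace.re := trace2_nonneg (pos_posSemidef _) (neg_posSemidef _)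
  have h6 : 0 ≤ (((pos X - pos X') - (X - X'))ᴴ * ((pos X - pos X') - (X - X'))).trace.re :=
    (Complex.le_def.1 (Matrix.posSemidef_conjTranspose_mul_self _).trace_nonneg).1
  rw [trace_sub_sq hΔ hE] at h6
  linarith

lemma isHermitian_line {C H : Matrix n n ℂ} (hC : C.IsHermitian) (hH : H.IsHermitian) (s : ℝ) :
    (C - s • H).IsHermitian := by
  refine hC.sub ?_
  rw [IsHermitian, conjTranspose_smul, hH.eq, star_trivial]

/-- The entries of `(C - s H)_+` are continuous in `s`. -/
lemma continuous_pos_line {C H : Matrix n n ℂ} (hC : C.IsHermitian) (hH : H.IsHermitian)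
    (i j : n) : Continuous fun s : ℝ => pos (C - s • H) i j := by
  have h1 : LipschitzWith ⟨Real.sqrt (Hᴴ * H).trace.re, Real.sqrt_nonneg _⟩
      (fun s : ℝ => pos (C - s • H) i j) := by
    refine LipschitzWith.of_dist_le_mul fun s t => ?_
    rw [dist_eq_norm, dist_eq_norm, Real.norm_eq_abs]
    show ‖pos (C - s • H) i j - pos (C - t • H) i j‖ ≤ Real.sqrt (Hᴴ * H).trace.re * |s - t|
    have h2 := pos_lip (isHermitian_line hC hH s) (isHermitian_line hC hH t)
    have h3 : (C - s • H) - (C - t • H) = (t - s) • H := by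
      rw [sub_smul]; abel
    have h4 : (((t - s) • H)ᴴ * ((t - s) • H)).trace.re = (s - t) ^ 2 * (Hᴴ * H).trace.re := by
      rw [conjTranspose_smul, star_trivial, Matrix.smul_mul, Matrix.mul_smul, smul_smul,
        trace_smul, Complex.real_smul, Complex.re_ofReal_mul]
      ring
    rw [h3, h4] at h2
    have h5 := (hs_entry (pos (C - s • H) - pos (C - t • H)) i j).trans h2
    have h6 : 0 ≤ (Hᴴ * H).trace.re :=
      (Complex.le_def.1 (Matrix.posSemidef_conjTranspose_mul_self H).trace_nonneg).1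
    refine abs_le_of_sq_le_sq' ?_ (by positivity) |>.2
    rw [mul_pow, Real.sq_sqrt h6, sq_abs, mul_comm]
    exact h5
  exact h1.continuous

lemma pos_eq_zero {X : Matrix n n ℂ} (h : (-X).PosSemidef) : pos X = 0 := by
  have hX : X.IsHermitian := by
    have := h.isHermitian.neg
    rwa [neg_neg] at this
  have h1 : ∀ x ∈ spectrum ℝ X, x ≤ 0 := by
    intro x hx
    have h2 : (0 : Matrix n n ℂ) ≤ -X := h.nonneg
    have h3 : -x ∈ spectrum ℝ (-X) := by
      rw [← spectrum.neg_eq]
      simpa using hx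
    have := spectrum_nonneg_of_nonneg h2 h3
    linarith
  rw [pos]
  have h4 : cfc (fun x : ℝ => max x 0) X = cfc (fun _ : ℝ => (0 : ℝ)) X :=
    cfc_congr fun x hx => max_eq_right (h1 x hx)
  rw [h4, cfc_const_zero]

lemma exists_upper {C : Matrix n n ℂ} (hC : C.IsHermitian) :
    ∃ c : ℝ, 0 ≤ c ∧ (c • (1 : Matrix n n ℂ) - C).PosSemidef := by
  obtain ⟨c, hc⟩ := (Matrix.finite_real_spectrum (A := C)).bddAbove
  refine ⟨max c 0, le_max_right _ _, Matrix.nonneg_iff_posSemidef.1 ?_⟩
  have hC' : IsSelfAdjoint C := hC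
  have h1 : max c 0 • (1 : Matrix n n ℂ) - C = cfc (fun x : ℝ => max c 0 - x) C := by
    rw [cfc_sub _ _ C (cont_spec _ _) (cont_spec _ _), cfc_const (max c 0) C hC', cfc_id' ℝ C hC',
      Algebra.algebraMap_eq_smul_one]
  rw [h1]
  exact cfc_nonneg fun x hx => sub_nonneg.2 ((hc hx).trans (le_max_left _ _))

lemma exists_lower {H : Matrix n n ℂ} (hH : H.PosDef) :
    ∃ h : ℝ, 0 < h ∧ (H - h • (1 : Matrix n n ℂ)).PosSemidef := by
  have hpos : ∀ x ∈ spectrum ℝ H, 0 < x := by
    intro x hx
    rw [hH.isHermitian.spectrum_real_eq_range_eigenvalues] at hx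
    obtain ⟨i, rfl⟩ := hx
    exact hH.eigenvalues_pos i
  have h0 : ∃ h : ℝ, 0 < h ∧ ∀ x ∈ spectrum ℝ H, h ≤ x := by
    rcases (spectrum ℝ H).eq_empty_or_nonempty with he | hne
    · exact ⟨1, one_pos, fun x hx => by rw [he] at hx; exact absurd hx (Set.notMem_empty x)⟩
    · obtain ⟨a, ha, hmin⟩ := Set.exists_min_image _ id (Matrix.finite_real_spectrum (A := H)) hne
      exact ⟨a, hpos a ha, fun x hx => hmin x hx⟩
  obtain ⟨h, hh, hle⟩ := h0
  refine ⟨h, hh, Matrix.nonneg_iff_posSemidef.1 ?_⟩
  have hH' : IsSelfAdjoint H := hH.isHermitian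
  have h1 : H - h • (1 : Matrix n n ℂ) = cfc (fun x : ℝ => x - h) H := by
    rw [cfc_sub _ _ H (cont_spec _ _) (cont_spec _ _), cfc_const h H hH',
      cfc_id' ℝ H hH', Algebra.algebraMap_eq_smul_one]
  rw [h1]
  exact cfc_nonneg fun x hx => sub_nonneg.2 (hle x hx)

/-- For large `s` the matrix `C - s H` is negative. -/
lemma exists_bound {C H : Matrix n n ℂ} (hC : C.IsHermitian) (hH : H.PosDef) :
    ∃ S : ℝ, 0 < S ∧ ∀ s, S ≤ s → pos (C - s • H) = 0 := by
  obtain ⟨c, hc, hcC⟩ := exists_upper hC
  obtain ⟨h, hh, hhH⟩ := exists_lower hH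
  refine ⟨(c + 1) / h, by positivity, fun s hs => pos_eq_zero ?_⟩
  have hs1 : c + 1 ≤ s * h := by rwa [div_le_iff₀ hh] at hs
  have hs0 : 0 ≤ s := le_trans (by positivity) hs
  have h1 : -(C - s • H) = (c • (1 : Matrix n n ℂ) - C) + s • (H - h • (1 : Matrix n n ℂ)) +
      (s * h - c) • (1 : Matrix n n ℂ) := by
    rw [smul_sub, smul_smul, sub_smul]
    abel
  rw [h1]
  refine (hcC.add (hhH.smul hs0)).add (Matrix.PosSemidef.one.smul ?_)
  linarith

/-- **Block A.** `4 ∫ Tr (C - s H)_+³ ds ≤ 2 Tr C² Y - Tr Y H Y`, `Y = 2 ∫ (C - s H)_+ ds`. -/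
theorem blockA {C H : Matrix n n ℂ} (hC : C.IsHermitian) (hH : H.PosDef) {Y : Matrix n n ℂ}
    (hY : Y = Matrix.of fun i j => 2 * ∫ s in Ioi (0 : ℝ), pos (C - s • H) i j) :
    4 * ∫ s in Ioi (0 : ℝ), (cfc (fun x : ℝ => max x 0 ^ 3) (C - s • H)).trace.re ≤
      2 * (C * C * Y).trace.re - (Y * H * Y).trace.re := by
  obtain ⟨S, hS, hzero⟩ := exists_bound hC hH
  have hconv : ∀ f : ℝ → ℂ, (∀ s, S ≤ s → f s = 0) →
      ∫ s in Ioi (0 : ℝ), f s = ∫ s in (0 : ℝ)..S, f s := by
    intro f hf
    rw [intervalIntegral.integral_of_le hS.le]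
    refine setIntegral_eq_of_subset_of_forall_sdiff_eq_zero measurableSet_Ioi
      Ioc_subset_Ioi_self fun s hs => hf s ?_
    by_contra hc
    exact hs.2 ⟨hs.1, (not_le.1 hc).le⟩
  have hconvR : ∀ f : ℝ → ℝ, (∀ s, S ≤ s → f s = 0) →
      ∫ s in Ioi (0 : ℝ), f s = ∫ s in (0 : ℝ)..S, f s := by
    intro f hf
    rw [intervalIntegral.integral_of_le hS.le]
    refine setIntegral_eq_of_subset_of_forall_sdiff_eq_zero measurableSet_Ioi
      Ioc_subset_Ioi_self fun s hs => hf s ?_
    by_contra hc
    exact hs.2 ⟨hs.1, (not_le.1 hc).le⟩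
  have hYZ : Y = (2 : ℂ) • Zint (fun s : ℝ => pos (C - s • H)) S := by
    rw [hY]
    ext i j
    show 2 * ∫ s in Ioi (0 : ℝ), pos (C - s • H) i j =
      2 * ∫ s in (0 : ℝ)..S, pos (C - s • H) i j
    rw [hconv _ fun s hs => by rw [hzero s hs]; rfl]
  have h3 : ∫ s in Ioi (0 : ℝ), (cfc (fun x : ℝ => max x 0 ^ 3) (C - s • H)).trace.re =
      ∫ s in (0 : ℝ)..S,
        (pos (C - s • H) * pos (C - s • H) * pos (C - s • H)).trace.re := by
    have h4 : (fun s : ℝ => (cfc (fun x : ℝ => max x 0 ^ 3) (C - s • H)).trace.re) =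
        fun s : ℝ => (pos (C - s • H) * pos (C - s • H) * pos (C - s • H)).trace.re := by
      funext s
      rw [pos_cube]
    rw [h4]
    refine hconvR _ fun s hs => ?_
    rw [hzero s hs, Matrix.mul_zero, trace_zero, Complex.zero_re]
  have hmain := A_int (C := C) hH.isHermitian (P := fun s : ℝ => pos (C - s • H))
    (N := fun s : ℝ => neg (C - s • H)) (continuous_pos_line hC hH.isHermitian)
    (fun s => pos_posSemidef _) (fun s => neg_posSemidef _) (fun s => pos_mul_neg _)
    (fun s => by rw [pos_sub_neg (isHermitian_line hC hH.isHermitian s)]; rfl) hS.le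
  rw [h3, hYZ]
  have h5 : ((2 : ℂ) • Zint (fun s : ℝ => pos (C - s • H)) S * H *
      (2 : ℂ) • Zint (fun s : ℝ => pos (C - s • H)) S).trace.re =
      4 * (Zint (fun s : ℝ => pos (C - s • H)) S * H *
        Zint (fun s : ℝ => pos (C - s • H)) S).trace.re := by
    rw [Matrix.smul_mul, Matrix.smul_mul, Matrix.mul_smul, smul_smul, trace_smul, smul_eq_mul,
      show (2 : ℂ) * 2 = ((4 : ℝ) : ℂ) by push_cast; norm_num, Complex.re_ofReal_mul]
  have h6 : (C * C * (2 : ℂ) • Zint (fun s : ℝ => pos (C - s • H)) S).trace.re =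
      2 * (C * C * Zint (fun s : ℝ => pos (C - s • H)) S).trace.re := by
    rw [Matrix.mul_smul, trace_smul, smul_eq_mul, show (2 : ℂ) = ((2 : ℝ) : ℂ) by push_cast; rfl,
      Complex.re_ofReal_mul]
  rw [h5, h6]
  linarith

end Pool.Agent.Lib_helper94.GC34.A67

end
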