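import Pool.Agent.Lib_helper31.GC34.Defs
import Pool.Agent.Lib_helper13.GC34.Trunc
import Pool.Agent.Lib_helper13.GC34.Iso
import Pool.Agent.Lib_helper94.GC34.A67
import Pool.Agent.Lib_helper19.G34.Trial

set_option autoImplicit false

/-!
# `pw_mu`: the trial bound, the inequality for the trial operator, isotropy and comparison together
-/

set_option linter.unusedSectionVars false

open scoped BigOperators ComplexOrder Kronecker MatrixOrder
open MeasureTheory Set Matrix

namespace Pool.Agent.Lib_helper94.GC34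
open Pool.Agent.GC34 Pool.Agent.RC Pool.Agent.Lib_helper13.GC34

variable {ι κ : Type} [Fintype ι] [DecidableEq ι] [Fintype κ] [DecidableEq κ]

theorem pos_eq_pos67 (X : Matrix ι ι ℂ) : pos X = Pool.Agent.Lib_helper94.GC34.A67.pos X := rfl

theorem Yy_eq {C H : Matrix ι ι ℂ} (hC : C.IsHermitian) (hH : H.PosDef) :
    ∃ S : ℝ, 0 ≤ S ∧ (∀ s, S ≤ s → pos (C - s • H) = 0) ∧ ∀ T, S ≤ T →
      Yy C H = (2 : ℂ) • Pool.Agent.Lib_helper94.GC34.A67.Zint (fun s : ℝ => pos (C - s • H)) T := by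
  obtain ⟨S, hS, hzero⟩ := Pool.Agent.Lib_helper94.GC34.A67.exists_bound hC hH
  refine ⟨S, hS.le, fun s hs => hzero s hs, fun T hT => ?_⟩
  have hconv : ∀ f : ℝ → ℂ, (∀ s, T ≤ s → f s = 0) →
      ∫ s in Ioi (0 : ℝ), f s = ∫ s in (0 : ℝ)..T, f s := by
    intro f hf
    rw [intervalIntegral.integral_of_le (hS.le.trans hT)]
    refine setIntegral_eq_of_subset_of_forall_sdiff_eq_zero measurableSet_Ioi
      Ioc_subset_Ioi_self fun s hs => hf s ?_
    by_contra hc
    exact hs.2 ⟨hs.1, (not_le.1 hc).le⟩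
  ext i j
  show 2 * ∫ s in Ioi (0 : ℝ), pos (C - s • H) i j =
    2 * ∫ s in (0 : ℝ)..T, pos (C - s • H) i j
  rw [hconv _ fun s hs => by
    have := hzero s (hT.trans hs)
    rw [pos_eq_pos67, this]; rfl]

theorem Yy_isHermitian {C H : Matrix ι ι ℂ} (hC : C.IsHermitian) (hH : H.PosDef) :
    (Yy C H).IsHermitian := by
  obtain ⟨S, hS, -, hY⟩ := Yy_eq hC hH
  rw [hY S le_rfl]
  have h1 := Pool.Agent.Lib_helper94.GC34.A67.Zint_isHermitian (P := fun s : ℝ => pos (C - s • H))
    (fun s => (Pool.Agent.Lib_helper94.GC34.A67.pos_posSemidef _).isHermitian) S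
  unfold Matrix.IsHermitian at h1 ⊢
  rw [Matrix.conjTranspose_smul, h1]
  simp

theorem blockA {C H : Matrix ι ι ℂ} (hC : C.IsHermitian) (hH : H.PosDef) :
    4 * J3 C H ≤ 2 * (C * C * Yy C H).trace.re - (Yy C H * H * Yy C H).trace.re :=
  Pool.Agent.Lib_helper94.GC34.A67.blockA hC hH rfl

theorem iso_Y {Ch Dh : Matrix ι ι ℂ} (hC : Ch.IsHermitian) (hD : Dh.IsHermitian) (μ β β' : ℝ)
    (hH : (Ch + β • Dh).PosDef) (hH' : (Ch + β' • Dh).PosDef) :
    (Ch * (Yy (Ch - μ • 1) (Ch + β • Dh) * Yy (Ch - μ • 1) (Ch + β' • Dh))).trace =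
    (Ch * (Yy (Ch - μ • 1) (Ch + β' • Dh) * Yy (Ch - μ • 1) (Ch + β • Dh))).trace := by
  have hX : (Ch - μ • (1 : Matrix ι ι ℂ)).IsHermitian := by
    refine hC.sub ?_
    unfold Matrix.IsHermitian
    rw [Matrix.conjTranspose_smul, Matrix.conjTranspose_one]
    simp
  obtain ⟨S, hS, -, hY⟩ := Yy_eq hX hH
  obtain ⟨S', hS', -, hY'⟩ := Yy_eq hX hH'
  set T := max S S' with hT
  have e1 := hY T (le_max_left _ _)
  have e2 := hY' T (le_max_right _ _)
  set P : ℝ → Matrix ι ι ℂ := fun s => pos (Ch - μ • (1 : Matrix ι ι ℂ) - s • (Ch + β • Dh)) with hP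
  set Q : ℝ → Matrix ι ι ℂ := fun s => pos (Ch - μ • (1 : Matrix ι ι ℂ) - s • (Ch + β' • Dh)) with hQ
  have cP : ∀ i j, Continuous fun s => P s i j :=
    Pool.Agent.Lib_helper94.GC34.A67.continuous_pos_line hX hH.isHermitian
  have cQ : ∀ i j, Continuous fun s => Q s i j :=
    Pool.Agent.Lib_helper94.GC34.A67.continuous_pos_line hX hH'.isHermitian
  have iso : ∀ s t, (Ch * P s * Q t).trace = (Ch * Q t * P s).trace := by
    intro s t
    refine trace_iso_real hC hD (-μ) (1 - s) (-(s * β)) (-μ) (1 - t) (-(t * β')) ?_ ?_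
      (fun x => max x 0) (fun x => max x 0)
    · module
    · module
  rw [e1, e2]
  set ZP := Pool.Agent.Lib_helper94.GC34.A67.Zint P T with hZP
  set ZQ := Pool.Agent.Lib_helper94.GC34.A67.Zint Q T with hZQ
  have main : (Ch * ZP * ZQ).trace = (Ch * ZQ * ZP).trace := by
    have s1 : (Ch * ZP * ZQ).trace = ∫ t in (0 : ℝ)..T, (Ch * ZP * Q t).trace :=
      Pool.Agent.Lib_helper94.GC34.A67.trace_integral cQ
    have s2 : (Ch * ZQ * ZP).trace = (ZP * Ch * ZQ).trace := by
      rw [Matrix.trace_mul_comm, Matrix.mul_assoc]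
    have s3 : (ZP * Ch * ZQ).trace = ∫ t in (0 : ℝ)..T, (ZP * Ch * Q t).trace :=
      Pool.Agent.Lib_helper94.GC34.A67.trace_integral cQ
    rw [s1, s2, s3]
    refine intervalIntegral.integral_congr fun t _ => ?_
    show (Ch * ZP * Q t).trace = (ZP * Ch * Q t).trace
    have r1 : (Ch * ZP * Q t).trace = (Q t * Ch * ZP).trace := by
      rw [Matrix.trace_mul_comm, Matrix.mul_assoc]
    have r2 : (ZP * Ch * Q t).trace = (Ch * Q t * ZP).trace := by
      rw [Matrix.mul_assoc, Matrix.trace_mul_comm]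
    have r3 : (Q t * Ch * ZP).trace = ∫ s in (0 : ℝ)..T, (Q t * Ch * P s).trace :=
      Pool.Agent.Lib_helper94.GC34.A67.trace_integral cP
    have r4 : (Ch * Q t * ZP).trace = ∫ s in (0 : ℝ)..T, (Ch * Q t * P s).trace :=
      Pool.Agent.Lib_helper94.GC34.A67.trace_integral cP
    rw [r1, r2, r3, r4]
    refine intervalIntegral.integral_congr fun s _ => ?_
    show (Q t * Ch * P s).trace = (Ch * Q t * P s).trace
    rw [← iso s t, Matrix.mul_assoc, Matrix.trace_mul_comm]
  have f1 : Ch * ((2 : ℂ) • ZP * (2 : ℂ) • ZQ) = (4 : ℂ) • (Ch * ZP * ZQ) := by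
    simp only [Matrix.smul_mul, Matrix.mul_smul, smul_smul, Matrix.mul_assoc]
    norm_num
  have f2 : Ch * ((2 : ℂ) • ZQ * (2 : ℂ) • ZP) = (4 : ℂ) • (Ch * ZQ * ZP) := by
    simp only [Matrix.smul_mul, Matrix.mul_smul, smul_smul, Matrix.mul_assoc]
    norm_num
  rw [f1, f2, Matrix.trace_smul, Matrix.trace_smul, main]

/-- `PosDef` of the Kronecker pencil of two strict pairs -/
theorem pencil_posDef {A B : Matrix ι ι ℂ} {C D : Matrix κ κ ℂ} (hV : Strict A B)
    (hW : Strict C D) : (A ⊗ₖ C + B ⊗ₖ D).PosDef := by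
  have e : A ⊗ₖ C + B ⊗ₖ D =
      (1 / 2 : ℝ) • ((A + B) ⊗ₖ (C + D) + (A - B) ⊗ₖ (C - D)) := by
    ext p q
    simp only [Matrix.add_apply, Matrix.smul_apply, Matrix.kroneckerMap_apply, Matrix.sub_apply,
      Complex.real_smul]
    push_cast
    ring
  rw [e]
  exact ((hV.add.kronecker hW.add).add (hV.sub.kronecker hW.sub)).smul (by norm_num)

theorem herm_smul (r : ℝ) {M : Matrix ι ι ℂ} (h : M.IsHermitian) : (r • M).IsHermitian := by
  unfold Matrix.IsHermitian
  rw [Matrix.conjTranspose_smul, h.eq]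
  simp

theorem strict_herm {A B : Matrix ι ι ℂ} (h : Strict A B) : A.IsHermitian ∧ B.IsHermitian := by
  have e1 : A = (1 / 2 : ℝ) • ((A + B) + (A - B)) := by module
  have e2 : B = (1 / 2 : ℝ) • ((A + B) - (A - B)) := by module
  constructor
  · rw [e1]
    exact herm_smul _ (h.add.isHermitian.add h.sub.isHermitian)
  · rw [e2]
    exact herm_smul _ (h.add.isHermitian.sub h.sub.isHermitian)

theorem dg_posSemidef {g : κ → ℝ} (hg : ∀ k, 0 ≤ g k) : (dg g).PosSemidef := by
  unfold dg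
  exact Matrix.posSemidef_diagonal_iff.2 fun k => by exact_mod_cast hg k

theorem pw_mu {A B : Matrix ι ι ℂ} {D : Matrix κ κ ℂ} {g : κ → ℝ} {lam σ : ℝ}
    {S : Matrix ι ι ℂ} {η : ι → ℝ} (h : Frame A B D g lam σ S η) (v : ι → ℂ) {μ : ℝ}
    (hμ : 0 ≤ μ) :
    ∑ i, ‖(S⁻¹ *ᵥ v) i‖ ^ 2 * (4 * J3 (dg g - μ • 1) (dg g - (lam - η i) • D)) ≤
    Qf A B (dg g - lam • D) D g v σ (fun c => (max (c - μ) 0) ^ 4) := by
  obtain ⟨hA, hB⟩ := strict_herm h.V
  have hDh : D.IsHermitian := (strict_herm h.W).2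
  have hl : 0 < lam + 1 := by linarith [h.lam_gt]
  set b : ℝ := lam + 1 with hb
  set β : ι → ℝ := fun i => (lam - η i) / b with hβ
  have hβ0 : ∀ i, 0 ≤ β i := fun i => div_nonneg (by linarith [h.η_le i]) hl.le
  have hβ1 : ∀ i, β i < 1 := fun i => by
    rw [hβ]
    simp only
    rw [div_lt_one hl]
    linarith [h.η_gt i]
  set F : Matrix κ κ ℂ := dg fun k => max (μ - g k) 0 with hF
  have hFp : F.PosSemidef := dg_posSemidef fun k => le_max_right _ _
  set B2 : Matrix ι ι ℂ := b⁻¹ • (lam • A - B) with hB2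
  set D2 : Matrix κ κ ℂ := -(b • D) with hD2
  have hC0 : (dg g).PosSemidef := dg_posSemidef fun k => (h.gpos k).le
  have hMe : A ⊗ₖ dg g + B2 ⊗ₖ D2 = A ⊗ₖ (dg g - lam • D) + B ⊗ₖ D := by
    ext p q
    simp only [hB2, hD2, Matrix.add_apply, Matrix.smul_apply, Matrix.kroneckerMap_apply,
      Matrix.sub_apply, Matrix.neg_apply, Complex.real_smul]
    have hb' : (b : ℂ) ≠ 0 := by exact_mod_cast hl.ne'
    push_cast
    field_simp
    ring
  have hM : (A ⊗ₖ dg g + B2 ⊗ₖ D2).PosDef := by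
    rw [hMe]
    exact pencil_posDef h.V h.W
  have hAB : (A - B2).PosSemidef := by
    have e : A - B2 = b⁻¹ • (A + B) := by
      ext i j
      simp only [hB2, Matrix.add_apply, Matrix.smul_apply, Matrix.sub_apply, Complex.real_smul]
      have hb' : (b : ℂ) ≠ 0 := by exact_mod_cast hl.ne'
      have hlb : (lam : ℂ) = b - 1 := by
        rw [hb]
        push_cast
        ring
      push_cast
      rw [hlb]
      field_simp
      ring
    rw [e]
    exact h.V.add.posSemidef.smul (inv_nonneg.2 hl.le)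
  have hE : (dg g + (1 : ℝ) • D2).PosSemidef := by
    have e : dg g + (1 : ℝ) • D2 = dg g - lam • D - D := by
      rw [hD2, hb]
      module
    rw [e]
    exact h.W.sub.posSemidef
  have hD2h : D2.IsHermitian := (herm_smul b hDh).neg
  have hSdet : IsUnit S.det := (Matrix.isUnit_iff_isUnit_det S).1 h.unit
  have hA' : A + (σ : ℂ) • (1 : Matrix ι ι ℂ) = S * Sᴴ := by
    rw [← h.hA]
    congr 1
  have hB' : B2 = S * diagonal (fun j => (β j : ℂ)) * Sᴴ := by
    have e1 : lam • A - B = lam • (A + σ • (1 : Matrix ι ι ℂ)) -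
        (B + (lam * σ) • (1 : Matrix ι ι ℂ)) := by module
    have e2 : diagonal (fun j => (β j : ℂ)) = b⁻¹ • (lam • (1 : Matrix ι ι ℂ) - dg η) := by
      ext i j
      by_cases hij : i = j
      · subst hij
        simp [dg, hβ, div_eq_inv_mul]
      · simp [dg, hij]
    rw [hB2, e1, h.hA, h.hB, e2]
    simp only [Matrix.mul_smul, Matrix.smul_mul, Matrix.mul_sub, Matrix.sub_mul, Matrix.mul_one]
  -- the trial operators
  have hCh : (dg g + F).IsHermitian := hC0.isHermitian.add hFp.isHermitian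
  have hDh2 : (D2 - F).IsHermitian := hD2h.sub hFp.isHermitian
  have hHi : ∀ i, (dg g + β i • D2).PosDef := by
    intro i
    have hgd : (dg g).PosDef := by
      unfold dg
      exact Matrix.posDef_diagonal_iff.2 fun k => by exact_mod_cast h.gpos k
    have e : dg g + β i • D2 = (1 - β i) • dg g + β i • (dg g + (1 : ℝ) • D2) := by module
    rw [e]
    exact (hgd.smul (by linarith [hβ1 i])).add_posSemidef (hE.smul (hβ0 i))
  have hHh : ∀ i, ((dg g + F) + β i • (D2 - F)).PosDef := by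
    intro i
    have e : (dg g + F) + β i • (D2 - F) = (dg g + β i • D2) + (1 - β i) • F := by module
    rw [e]
    exact (hHi i).add_posSemidef (hFp.smul (by linarith [hβ1 i]))
  set Cp : Matrix κ κ ℂ := (dg g + F) - μ • (1 : Matrix κ κ ℂ) with hCp
  have hCpd : Cp = dg fun k => max (g k - μ) 0 := by
    rw [hCp, hF]
    ext i j
    by_cases hij : i = j
    · subst hij
      simp only [dg, Matrix.sub_apply, Matrix.add_apply, Matrix.diagonal_apply_eq,
        Matrix.smul_apply, Matrix.one_apply_eq, Complex.real_smul, mul_one]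
      rcases le_total (g i) μ with hle | hle
      · rw [max_eq_left (by linarith : 0 ≤ μ - g i), max_eq_right (by linarith : g i - μ ≤ 0)]
        push_cast
        ring
      · rw [max_eq_right (by linarith : μ - g i ≤ 0), max_eq_left (by linarith : 0 ≤ g i - μ)]
        push_cast
        ring
    · simp [dg, hij]
  have hCph : Cp.IsHermitian := by
    rw [hCp]
    exact hCh.sub (herm_smul μ Matrix.isHermitian_one)
  set Y : ι → Matrix κ κ ℂ := fun i => Yy Cp ((dg g + F) + β i • (D2 - F)) with hY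
  have hYh : ∀ i, (Y i).IsHermitian := fun i => Yy_isHermitian hCph (hHh i)
  have hiso : ∀ i j, ((dg g + F) * (Y i * Y j)).trace = ((dg g + F) * (Y j * Y i)).trace :=
    fun i j => iso_Y hCh hDh2 μ (β i) (β j) (hHh i) (hHh j)
  have htb := Pool.Agent.G34.trial_bound (A := A) (B := B2) (S := S) (C := dg g) (D := D2)
    (F := F) (U := (1 : Matrix κ κ ℂ)) h.σpos.le hM hAB hFp (by simp)
    (f := fun k => (max (g k - μ) 0) ^ 2) (g := g) (fun k => (h.gpos k).le)
    (by simp [dg]) hSdet (β := β) hA' hB' v hYh hiso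
  have hR : ∑ k, (fun k => (max (g k - μ) 0) ^ 2) k ^ 2 * (star (fun p : ι × κ => v p.1 *
      (1 : Matrix κ κ ℂ) p.2 k) ⬝ᵥ (((A ⊗ₖ dg g + B2 ⊗ₖ D2) + ((σ * g k : ℝ) : ℂ) •
        (1 : Matrix (ι × κ) (ι × κ) ℂ))⁻¹ *ᵥ
        (fun p : ι × κ => v p.1 * (1 : Matrix κ κ ℂ) p.2 k))).re =
      Qf A B (dg g - lam • D) D g v σ (fun c => (max (c - μ) 0) ^ 4) := by
    unfold Qf
    refine Finset.sum_congr rfl fun k _ => ?_
    have ew : (fun p : ι × κ => v p.1 * (1 : Matrix κ κ ℂ) p.2 k) = wv v k := by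
      funext p
      unfold wv
      by_cases hp : p.2 = k
      · rw [hp, Matrix.one_apply_eq, if_pos rfl, mul_one]
      · rw [Matrix.one_apply_ne hp, if_neg hp, mul_zero]
    have es : ((σ * g k : ℝ) : ℂ) • (1 : Matrix (ι × κ) (ι × κ) ℂ) =
        (σ * g k) • (1 : Matrix (ι × κ) (ι × κ) ℂ) := by
      ext p q
      simp
    rw [ew, es, hMe]
    unfold qf
    ring
  rw [hR] at htb
  refine le_trans (Finset.sum_le_sum fun i _ => ?_) htb
  rw [← Complex.normSq_eq_norm_sq]
  refine mul_le_mul_of_nonneg_left ?_ (Complex.normSq_nonneg _)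
  have hphi : (1 : Matrix κ κ ℂ) * diagonal (fun k => (((max (g k - μ) 0) ^ 2 : ℝ) : ℂ)) *
      star (1 : Matrix κ κ ℂ) = Cp * Cp := by
    rw [hCpd]
    unfold dg
    rw [Matrix.diagonal_mul_diagonal, star_one, mul_one, one_mul]
    congr 1
    ext k
    push_cast
    ring
  have hA67 := blockA hCph (hHh i)
  have hcmp := comparison_integral (C := dg g) (D := D2) (F := F) (b := 1) (β := β i) (lam := μ)
    3 (by norm_num) hC0 hD2h hFp one_pos hE (hβ0 i) hμ
    (by rw [inv_one, one_smul]; exact hHh i)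
  rw [inv_one, one_smul] at hcmp
  have hJ : J3 (dg g - μ • 1) (dg g - (lam - η i) • D) ≤
      J3 Cp ((dg g + F) + β i • (D2 - F)) := by
    have e : dg g - (lam - η i) • D = dg g + β i • D2 := by
      have hbb : β i * b = lam - η i := by
        rw [hβ]
        simp only
        field_simp
      rw [hD2, smul_neg, smul_smul, hbb]
      abel
    rw [e]
    exact hcmp
  have e4 : (Y i * (((dg g + F) + (β i : ℂ) • (D2 - F)) * Y i)).trace =
      (Yy Cp ((dg g + F) + β i • (D2 - F)) * ((dg g + F) + β i • (D2 - F)) *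
        Yy Cp ((dg g + F) + β i • (D2 - F))).trace := by
    have es : (β i : ℂ) • (D2 - F) = β i • (D2 - F) := by
      ext p q
      simp
    rw [es, Matrix.mul_assoc]
  rw [hphi, e4]
  linarith

end Pool.Agent.Lib_helper94.GC34
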