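import Pool.Agent.Lib_helper94.GC34.ClCore
import Pool.Agent.Lib_helper33.GC.W1
import Pool.Agent.Lib_helper44.G34.Ftc
import Pool.Agent.Lib_helper82.GC34.Succ

set_option autoImplicit false
set_option linter.unusedSectionVars false

/-!
# `cl_real`: the classical side at real points
-/

open scoped BigOperators ComplexOrder Kronecker MatrixOrder
open MeasureTheory Set Matrix

namespace Pool.Agent.Lib_helper94.GC34
open Pool.Agent.GC34 Pool.Agent.RC

theorem cl_real {p : ℝ} (h3 : 3 < p) (h4 : p < 4) {n : ℕ}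
    {A B : Matrix (Fin (n + 1)) (Fin (n + 1)) ℂ} {lam : ℝ} (hV : Strict A B)
    (h1 : -1 < lam) (h1' : lam < 1) (hu : B *ᵥ e0 = lam • (A *ᵥ e0)) {x : ℝ} (hx : |x| ≤ 1) :
    tf (fun y => y ^ p) (A + x • B) -
      tf (fun y => y ^ p)
        (A.submatrix Fin.succ Fin.succ + x • B.submatrix Fin.succ Fin.succ) =
      ∫ t in Ioo (0 : ℝ) 1, 2 * p / t * (cq (p - 2) * ∫ σ in Ioi (0 : ℝ), σ ^ (p - 2) *
        (Fz p (low {0} t A) (low {0} t B) lam (low {0} t A *ᵥ e0) σ x).re) := by
  refine cl_real_of hV h1 h1' hu hx ?_ ?_ ?_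
  · intro X hX w g hg
    exact (Pool.Agent.Lib_helper33.GC34.powq (q := p - 2) (by linarith) (by linarith) hX w hg).2
  · intro X hX
    have h := (Pool.Agent.Lib_helper44.G34.ftc_Z hX ({0} : Finset (Fin (n + 1)))
      (p := p) (by linarith)).2.2.2.2.2
    rw [intervalIntegral.integral_of_le zero_le_one, integral_Ioc_eq_integral_Ioo] at h
    exact h
  · intro X hX
    have hp0 : p ≠ 0 := ne_of_gt (by linarith)
    exact Pool.Agent.Lib_helper82.GC34.tf_succ (f := fun y : ℝ => y ^ p) (Real.zero_rpow hp0) hX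

end Pool.Agent.Lib_helper94.GC34
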