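import Pool.Agent.Lib_helper31.GC34.Defs2

set_option autoImplicit false
set_option linter.unusedSectionVars false

/-!
# `cl_real`: the classical side at real points
-/

open scoped BigOperators ComplexOrder Kronecker MatrixOrder
open MeasureTheory Set Matrix

namespace Pool.Agent.Lib_helper94.GC34
open Pool.Agent.GC34 Pool.Agent.RC

variable {ι κ : Type} [Fintype ι] [DecidableEq ι] [Fintype κ] [DecidableEq κ]

theorem line_posDef {A B : Matrix ι ι ℂ} (hV : Strict A B) {x : ℝ} (hx : |x| ≤ 1) :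
    (A + x • B).PosDef := by
  have h := abs_le.1 hx
  have e : A + x • B = ((1 + x) / 2) • (A + B) + ((1 - x) / 2) • (A - B) := by module
  rw [e]
  rcases eq_or_lt_of_le h.2 with h1 | h1
  · rw [h1]
    have : ((1 - (1 : ℝ)) / 2) • (A - B) = 0 := by rw [sub_self, zero_div, zero_smul]
    rw [this, add_zero]
    exact hV.add.smul (by norm_num)
  · exact Matrix.PosDef.posSemidef_add (hV.add.posSemidef.smul (by linarith [h.1]))
      (hV.sub.smul (by linarith))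

theorem SZ_mul_inv (Z : Finset ι) {t : ℝ} (ht : t ≠ 0) : SZ Z t * SZ Z t⁻¹ = 1 := by
  unfold SZ
  rw [Matrix.diagonal_mul_diagonal, ← Matrix.diagonal_one]
  congr 1
  ext i
  by_cases hi : i ∈ Z
  · simp [hi, ht]
  · simp [hi]

theorem SZ_herm (Z : Finset ι) (t : ℝ) : (SZ Z t)ᴴ = SZ Z t := by
  unfold SZ
  rw [Matrix.diagonal_conjTranspose]
  congr 1
  ext i
  by_cases hi : i ∈ Z
  · simp [hi]
  · simp [hi]

theorem low_posDef {X : Matrix ι ι ℂ} (hX : X.PosDef) (Z : Finset ι) {t : ℝ} (ht : t ≠ 0) :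
    (low Z t X).PosDef := by
  have hu : IsUnit (SZ Z t) := by
    rw [Matrix.isUnit_iff_isUnit_det]
    refine isUnit_of_mul_isUnit_left (y := (SZ Z t⁻¹).det) ?_
    rw [← Matrix.det_mul, SZ_mul_inv Z ht, Matrix.det_one]
    exact isUnit_one
  have h := hX.conjTranspose_mul_mul_same (B := SZ Z t)
    (Matrix.mulVec_injective_of_isUnit hu)
  rw [SZ_herm] at h
  exact h

theorem low_line (Z : Finset ι) (t x : ℝ) (A B : Matrix ι ι ℂ) :
    low Z t (A + x • B) = low Z t A + x • low Z t B := by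
  unfold low
  rw [Matrix.mul_add, Matrix.add_mul, Matrix.mul_smul, Matrix.smul_mul]

theorem SZ_e0 {n : ℕ} (t : ℝ) :
    SZ ({0} : Finset (Fin (n + 1))) t *ᵥ e0 = (t : ℂ) • (e0 : Fin (n + 1) → ℂ) := by
  unfold SZ e0
  ext i
  rw [Matrix.mulVec_diagonal]
  by_cases hi : i = 0
  · subst hi
    simp
  · simp [hi]

theorem low_e0 {n : ℕ} {A B : Matrix (Fin (n + 1)) (Fin (n + 1)) ℂ} {lam : ℝ}
    (hu : B *ᵥ e0 = lam • (A *ᵥ e0)) (t : ℝ) :
    low {0} t B *ᵥ e0 = lam • (low {0} t A *ᵥ e0) := by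
  unfold low
  rw [← Matrix.mulVec_mulVec, ← Matrix.mulVec_mulVec, SZ_e0, Matrix.mulVec_smul, hu,
    ← Matrix.mulVec_mulVec, ← Matrix.mulVec_mulVec, SZ_e0, Matrix.mulVec_smul,
    Matrix.mulVec_smul, Matrix.mulVec_smul, Matrix.mulVec_smul]
  ext i
  simp only [Pi.smul_apply, smul_eq_mul, Complex.real_smul]
  ring

/-- `X^p = X X^(p-2) X` as quadratic form -/
theorem qf_rpow_split {X : Matrix ι ι ℂ} (hX : X.PosDef) (p : ℝ) (w : ι → ℂ) :
    qf (cfc (fun y : ℝ => y ^ p) X) w = qf (cfc (fun y : ℝ => y ^ (p - 2)) X) (X *ᵥ w) := by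
  have hs : IsSelfAdjoint X := hX.isHermitian
  have hpos : ∀ y ∈ spectrum ℝ X, 0 < y := by
    intro y hy
    rw [hX.isHermitian.spectrum_real_eq_range_eigenvalues] at hy
    obtain ⟨i, rfl⟩ := hy
    exact hX.eigenvalues_pos i
  have hc : ∀ r : ℝ, ContinuousOn (fun y : ℝ => y ^ r) (spectrum ℝ X) := fun r y hy =>
    (Real.continuousAt_rpow_const y r (Or.inl (hpos y hy).ne')).continuousWithinAt
  have e1 : cfc (fun y : ℝ => y ^ p) X = X * cfc (fun y : ℝ => y ^ (p - 2)) X * X := by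
    have e2 : cfc (fun y : ℝ => y ^ p) X = cfc (fun y : ℝ => y * y ^ (p - 2) * y) X := by
      refine cfc_congr fun y hy => ?_
      have hy0 := hpos y hy
      show y ^ p = y * y ^ (p - 2) * y
      have : y ^ p = y ^ (p - 2) * y ^ (2 : ℝ) := by
        rw [← Real.rpow_add hy0]
        congr 1
        ring
      rw [this, Real.rpow_two]
      ring
    rw [e2, cfc_mul (fun y : ℝ => y * y ^ (p - 2)) (fun y : ℝ => y) X
      (continuousOn_id.mul (hc _)) continuousOn_id,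
      cfc_mul (fun y : ℝ => y) (fun y : ℝ => y ^ (p - 2)) X continuousOn_id (hc _), cfc_id' ℝ X]
  unfold qf
  rw [e1, ← Matrix.mulVec_mulVec, ← Matrix.mulVec_mulVec, Matrix.star_mulVec X w,
    show Xᴴ = X from hX.isHermitian, ← Matrix.dotProduct_mulVec]

theorem qf_smul (M : Matrix ι ι ℂ) (s : ℝ) (v : ι → ℂ) : qf M (s • v) = s ^ 2 * qf M v := by
  unfold qf
  have e1 : s • v = (s : ℂ) • v := by
    ext i
    simp
  rw [e1, star_smul, Matrix.mulVec_smul, smul_dotProduct, dotProduct_smul, smul_smul]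
  have : star (s : ℂ) * (s : ℂ) = ((s ^ 2 : ℝ) : ℂ) := by
    rw [Complex.star_def, Complex.conj_ofReal]
    push_cast
    ring
  rw [this, smul_eq_mul, Complex.re_ofReal_mul]

/-- the real part of `Fz` at real points -/
theorem Fz_re {p : ℝ} (A B : Matrix ι ι ℂ) {lam : ℝ} (v : ι → ℂ) (σ : ℝ) {x : ℝ}
    (hs : 0 < 1 + lam * x) :
    (Fz p A B lam v σ x).re =
      (1 + lam * x) ^ (p + 1) * qf ((A + x • B + (σ * (1 + lam * x)) • (1 : Matrix ι ι ℂ))⁻¹) v -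
      (1 + lam * x) ^ p * qf 1 v / σ + (1 + lam * x) ^ (p - 1) * qf (A + x • B) v / σ ^ 2 := by
  unfold Fz
  have e0 : ∀ r : ℝ, (1 + (lam : ℂ) * (x : ℂ)) ^ (r : ℂ) = (((1 + lam * x) ^ r : ℝ) : ℂ) := by
    intro r
    rw [Complex.ofReal_cpow hs.le]
    push_cast
    rfl
  have e1 : (1 + (lam : ℂ) * (x : ℂ)) ^ ((p : ℂ) + 1) = (((1 + lam * x) ^ (p + 1) : ℝ) : ℂ) := by
    rw [← e0]
    push_cast
    rfl
  have e2 : (1 + (lam : ℂ) * (x : ℂ)) ^ ((p : ℂ) - 1) = (((1 + lam * x) ^ (p - 1) : ℝ) : ℂ) := by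
    rw [← e0]
    push_cast
    rfl
  have e3 : (A + σ • (1 : Matrix ι ι ℂ)) + (x : ℂ) • (B + (lam * σ) • (1 : Matrix ι ι ℂ)) =
      A + x • B + (σ * (1 + lam * x)) • (1 : Matrix ι ι ℂ) := by
    ext i j
    simp only [Matrix.add_apply, Matrix.smul_apply, smul_eq_mul, Complex.real_smul]
    push_cast
    ring
  have e4 : A + (x : ℂ) • B = A + x • B := by
    ext i j
    simp
  have e5 : (star v ⬝ᵥ v).re = qf 1 v := by
    unfold qf
    rw [Matrix.one_mulVec]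
  rw [e1, e0 p, e2, e3, e4, Complex.add_re, Complex.sub_re, Complex.re_ofReal_mul]
  have e6 : ∀ (r : ℝ) (z : ℂ), (((r : ℝ) : ℂ) * z / (σ : ℂ)).re = r * z.re / σ := by
    intro r z
    rw [mul_div_assoc, Complex.re_ofReal_mul, Complex.div_ofReal_re, mul_div_assoc]
  have e7 : ∀ (r : ℝ) (z : ℂ), (((r : ℝ) : ℂ) * z / (σ : ℂ) ^ 2).re = r * z.re / σ ^ 2 := by
    intro r z
    rw [← Complex.ofReal_pow, mul_div_assoc, Complex.re_ofReal_mul, Complex.div_ofReal_re,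
      mul_div_assoc]
  rw [e6, e7, e5]
  rfl

/-- the diagonal entry as an integral over `σ` -/
theorem entry_eq {p : ℝ} {n : ℕ}
    {A B : Matrix (Fin (n + 1)) (Fin (n + 1)) ℂ} {lam : ℝ} (hV : Strict A B)
    (h1 : -1 < lam) (h1' : lam < 1) (hu : B *ᵥ e0 = lam • (A *ᵥ e0)) {x : ℝ} (hx : |x| ≤ 1)
    (hpow : ∀ {X : Matrix (Fin (n + 1)) (Fin (n + 1)) ℂ}, X.PosDef → ∀ (w : Fin (n + 1) → ℂ)
      {g : ℝ}, 0 < g → qf (cfc (fun x : ℝ => x ^ (p - 2)) X) w = cq (p - 2) *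
        ∫ σ in Ioi (0 : ℝ), σ ^ (p - 2) * (g ^ ((p - 2) + 1) *
      (qf ((X + (σ * g) • (1 : Matrix (Fin (n + 1)) (Fin (n + 1)) ℂ))⁻¹) w - qf 1 w / (g * σ) +
        qf X w / (g * σ) ^ 2))) {t : ℝ} (ht : 0 < t) :
    ∑ i ∈ ({0} : Finset (Fin (n + 1))),
      (cfc (fun y : ℝ => y ^ p) (low {0} t (A + x • B)) i i).re =
      cq (p - 2) * ∫ σ in Ioi (0 : ℝ), σ ^ (p - 2) *
        (Fz p (low {0} t A) (low {0} t B) lam (low {0} t A *ᵥ e0) σ x).re := by
  have hs : 0 < 1 + lam * x := by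
    have h := abs_le.1 hx
    have : |lam * x| < 1 := by
      rw [abs_mul]
      have hl : |lam| < 1 := abs_lt.2 ⟨h1, h1'⟩
      calc |lam| * |x| ≤ |lam| * 1 := mul_le_mul_of_nonneg_left hx (abs_nonneg _)
        _ < 1 := by linarith
    linarith [(abs_lt.1 this).1]
  set X := low ({0} : Finset (Fin (n + 1))) t (A + x • B) with hXdef
  have hX : X.PosDef := low_posDef (line_posDef hV hx) _ ht.ne'
  have hXe : X = low {0} t A + x • low {0} t B := low_line _ _ _ _ _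
  set v := low ({0} : Finset (Fin (n + 1))) t A *ᵥ e0 with hv
  have hXv : X *ᵥ e0 = (1 + lam * x) • v := by
    rw [hXe, Matrix.add_mulVec, Matrix.smul_mulVec, low_e0 hu t, ← hv, smul_smul, add_smul,
      one_smul, mul_comm x lam]
  have e1 : ∑ i ∈ ({0} : Finset (Fin (n + 1))), (cfc (fun y : ℝ => y ^ p) X i i).re =
      qf (cfc (fun y : ℝ => y ^ p) X) e0 := by
    rw [Finset.sum_singleton]
    unfold qf e0
    rw [← Pi.single_star, star_one, single_one_dotProduct, Matrix.mulVec_single_one]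
    rfl
  rw [e1, qf_rpow_split hX, hXv, qf_smul, hpow hX v hs, ← mul_assoc, mul_comm (_ ^ 2) (cq _),
    mul_assoc, ← integral_const_mul]
  congr 1
  refine setIntegral_congr_fun measurableSet_Ioi fun σ hσ => ?_
  have hσ0 : (0 : ℝ) < σ := hσ
  have hs2 : ∀ r : ℝ, (1 + lam * x) ^ (r + 2) = (1 + lam * x) ^ r * (1 + lam * x) ^ 2 := by
    intro r
    rw [Real.rpow_add hs, Real.rpow_two]
  have hs1 : ∀ r : ℝ, (1 + lam * x) ^ (r + 1) = (1 + lam * x) ^ r * (1 + lam * x) := by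
    intro r
    rw [Real.rpow_add hs, Real.rpow_one]
  show (1 + lam * x) ^ 2 * (σ ^ (p - 2) * _) = σ ^ (p - 2) * _
  rw [Fz_re _ _ _ _ hs, ← hXe]
  have c1 : (1 + lam * x) ^ ((p - 2) + 1) = (1 + lam * x) ^ (p - 1) := by
    congr 1
    ring
  have c2 : (1 + lam * x) ^ p = (1 + lam * x) ^ (p - 1) * (1 + lam * x) := by
    rw [← hs1]
    congr 1
    ring
  have c3 : (1 + lam * x) ^ (p + 1) = (1 + lam * x) ^ (p - 1) * (1 + lam * x) ^ 2 := by
    rw [← hs2]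
    congr 1
    ring
  rw [c1, c2, c3]
  field_simp

theorem cl_real_of {p : ℝ} {n : ℕ}
    {A B : Matrix (Fin (n + 1)) (Fin (n + 1)) ℂ} {lam : ℝ} (hV : Strict A B)
    (h1 : -1 < lam) (h1' : lam < 1) (hu : B *ᵥ e0 = lam • (A *ᵥ e0)) {x : ℝ} (hx : |x| ≤ 1)
    (hpow : ∀ {X : Matrix (Fin (n + 1)) (Fin (n + 1)) ℂ}, X.PosDef → ∀ (w : Fin (n + 1) → ℂ)
      {g : ℝ}, 0 < g → qf (cfc (fun x : ℝ => x ^ (p - 2)) X) w = cq (p - 2) *
        ∫ σ in Ioi (0 : ℝ), σ ^ (p - 2) * (g ^ ((p - 2) + 1) *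
      (qf ((X + (σ * g) • (1 : Matrix (Fin (n + 1)) (Fin (n + 1)) ℂ))⁻¹) w - qf 1 w / (g * σ) +
        qf X w / (g * σ) ^ 2)))
    (hftc : ∀ {X : Matrix (Fin (n + 1)) (Fin (n + 1)) ℂ}, X.PosSemidef →
      ∫ t in Ioo (0 : ℝ) 1, 2 * p / t * ∑ i ∈ ({0} : Finset (Fin (n + 1))),
        (cfc (fun x : ℝ => x ^ p) (low {0} t X) i i).re =
      tf (fun x => x ^ p) X - tf (fun x => x ^ p) (low {0} 0 X))
    (htf : ∀ {X : Matrix (Fin (n + 1)) (Fin (n + 1)) ℂ}, X.IsHermitian →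
      tf (fun y => y ^ p) (low {0} 0 X) = tf (fun y => y ^ p) (X.submatrix Fin.succ Fin.succ)) :
    tf (fun y => y ^ p) (A + x • B) -
      tf (fun y => y ^ p)
        (A.submatrix Fin.succ Fin.succ + x • B.submatrix Fin.succ Fin.succ) =
      ∫ t in Ioo (0 : ℝ) 1, 2 * p / t * (cq (p - 2) * ∫ σ in Ioi (0 : ℝ), σ ^ (p - 2) *
        (Fz p (low {0} t A) (low {0} t B) lam (low {0} t A *ᵥ e0) σ x).re) := by
  have hX := line_posDef hV hx
  have e1 := hftc hX.posSemidef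
  rw [htf hX.isHermitian] at e1
  have e2 : (A + x • B).submatrix Fin.succ Fin.succ =
      A.submatrix Fin.succ Fin.succ + x • B.submatrix Fin.succ Fin.succ := rfl
  rw [e2] at e1
  rw [← e1]
  refine setIntegral_congr_fun measurableSet_Ioo fun t ht => ?_
  show 2 * p / t * _ = 2 * p / t * _
  rw [entry_eq hV h1 h1' hu hx hpow ht.1]

end Pool.Agent.Lib_helper94.GC34
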